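import Pool.Agent.Q267.OD.Fin

/-!
# A positive proportion of ordinary places for almost all members of every pencil

Let `K` be a number field, `d 1, …, d n` positive integers, `b i ≠ 0` in `𝓞 K` and let
`G ∈ 𝓞 K [x_1, …, x_n]` be any polynomial all of whose monomials `x ^ u` satisfy `∑ u_i / d_i < 1`.
We look at the pencil of hypersurfaces

  `X_c : ∑ b_i x_i ^ (d_i) + G(x) + c = 0`, `c = 1, 2, 3, …`

or rather at their closures in the projective space with the weights `1, m / d_1, …, m / d_n`,
`m = lcm (d_i)`. If the affine hypersurface is smooth and `m ∏ b_i` is invertible, the closure is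
quasismooth, and the matrix of Frobenius on `H ^ (n - 1) (X, O)` is the Hasse-Witt matrix, the matrix
of the coefficients of `x ^ (p w - w')` in the `(p - 1)`-th power of the equation, where `w` and `w'` run
through the exponents with `w_i ≥ 1` and `∑ w_i / d_i < 1`; their number is the genus (`n = 2`), or the
geometric genus. For curves the reduction is ordinary if and only if this matrix is invertible. The
same is true for surfaces (Bloch-Kato ordinarity, for the resolution of the cyclic quotient
singularities): from the exact sequence of `O`, `F_* O` and `B Ω¹` and the duality of `B Ω¹` and `B Ω²`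
a surface with `H¹(O) = 0` is ordinary if and only if Frobenius is bijective on `H²(O)`. In higher
dimension the matrix is invertible if and only if Frobenius is bijective on the cohomology of `O`.

Let `δ = ∑_w (1 - ∑ w_i / d_i)`, the sum over these exponents.

**Theorem.** For every `η > 0` there is a constant `A` which depends only on `K`, `d`, `b`, `η`, such
that for every `G` and every `X` all but at most `A X / π(√X)` of the integers `1 ≤ c ≤ X` have the
following property: among the places `v` of `K` with `N v ≤ √X`, the proportion of those at which `X_c` has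
good ordinary reduction (the reduction is smooth and the Hasse-Witt matrix is invertible) is at least
`(1 - δ) / [K(ζ_m) : K] - η`.

So if `δ < 1`, for almost all members of each of the pencils the places of ordinary reduction up to
`√X` are a positive proportion of all places up to `√X`, and if `K` contains the `m`-th roots of unity,
the proportion is at least `1 - δ - η`. Here `π(√X)` is the number of primes up to `√X`; the exceptional
set has `O(√X log X)` elements. The exponents `c` of the pencil can start at any element of `𝓞 K`
(put it into `G`).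

Cases with `δ < 1`:
* hyperelliptic curves of genus `g ≤ 4`, `d = (2, 2g + 1)`, `δ = g² / (4 g + 2)`; the curves of genus
  `3` and `4` with `d = (3, 4)` (plane quartics with a hyperflex) and `d = (3, 5)`;
* surfaces of general type: the double planes branched along an octic curve, `d = (2, 8, 8)`, `p_g = 3`,
  `δ = 1 / 2`, and the triple planes with `d = (3, 6, 6)`;
* the elliptic surfaces `y² = x³ + a(t) x + b(t)` with `deg b = N ≤ 72`, `deg a < 2 N / 3`,
  `d = (2, 3, N)`, of geometric genus up to `11`, and K3 surfaces;
* Calabi-Yau hypersurfaces of any dimension, `d = (n + 1, …, n + 1)`, `δ = 1 / (n + 1)`.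
The values of `δ` for some of them are the second part of the theorem.

Proof. Let `p = 1` modulo `m` be the norm of a place `v` of degree one. The determinant of the
Hasse-Witt matrix at `v` is a polynomial in `c` of degree exactly `δ (p - 1)`
(`Pool/Agent/Q267/OD/Hom.lean`, `Diag.lean`): it is weighted homogeneous in `c` and the coefficients of
`G`, and for `G = 0` the matrix is diagonal, with multinomial coefficients which are prime to `p`. There
are at most `∏ (d_i - 1)` singular members (`Crit.lean`). So there are at most `(δ + ε) p` bad residue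
classes for `c` modulo `p`, for large `p`. The large sieve in variance form
(`Pool/Agent/H174R3/D6/TaskLS.lean` of the starting library) shows that few `c` are in bad classes for
more than the proportion `δ + 2 ε` of the places (`Sieve.lean`, `Main.lean`). The density of the places
comes from Chebotarev's theorem (`Pool/Agent/W401/Cheb`, `Pool/Agent/W528/Ord` of the starting library,
`NF.lean`).
-/

set_option autoImplicit false

open Finset MvPolynomial NumberField IsDedekindDomain

namespace Pool.Agent.Results.MP_17d720_ag.AlmostAllInPencils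

/-- The exponents `w` with `w i ≥ 1` and `∑ w i / d i < 1`. -/
abbrev Exps {n : ℕ} (d : Fin n → ℕ) :=
  {w : (i : Fin n) → Fin (d i) // (∀ i, 0 < (w i : ℕ)) ∧ ∑ i, ((w i : ℕ) : ℚ) / d i < 1}

/-- The sum of the numbers `1 - ∑ w i / d i` over all these exponents. -/
def defect {n : ℕ} (d : Fin n → ℕ) : ℚ := ∑ w : Exps d, (1 - ∑ i, ((w.1 i : ℕ) : ℚ) / d i)

/-- The Hasse-Witt matrix over a field with `q` elements: the entry with indices `w`, `w'` is the
coefficient of `x ^ (q w - w')` in `F ^ (q - 1)`, written as the coefficient of `x ^ (q w)` in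
`x ^ w' F ^ (q - 1)`. -/
noncomputable def hasseWitt {R : Type*} [CommRing R] {n : ℕ} (d : Fin n → ℕ) (q : ℕ)
    (F : MvPolynomial (Fin n) R) : Matrix (Exps d) (Exps d) R :=
  Matrix.of fun w w' => coeff (Finsupp.equivFunOnFinite.symm fun i => q * (w.1 i : ℕ))
    (monomial (Finsupp.equivFunOnFinite.symm fun i => (w'.1 i : ℕ)) 1 * F ^ (q - 1))

/-- The affine hypersurface `F = 0` is smooth: no singular point over the algebraic closure. -/
def Smooth {k : Type*} [Field k] {n : ℕ} (F : MvPolynomial (Fin n) k) : Prop :=
  ∀ ξ : Fin n → AlgebraicClosure k, aeval ξ F = 0 → ∃ i, aeval ξ (pderiv i F) ≠ 0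

/-- The equation `∑ b_i x_i ^ (d_i) + G + c` of `X_c`. -/
noncomputable def equation {R : Type*} [CommRing R] {n : ℕ} (d : Fin n → ℕ) (b : Fin n → R)
    (G : MvPolynomial (Fin n) R) (c : R) : MvPolynomial (Fin n) R :=
  ∑ i, monomial (Finsupp.single i (d i)) (b i) + G + C c

/-- `X_c` has good ordinary reduction at the place `v`: `d_i b_i` is invertible at `v`, the reduction is
smooth and its Hasse-Witt matrix is invertible. -/
def GoodOrdinary {K : Type} [Field K] [NumberField K] {n : ℕ} (d : Fin n → ℕ) (b : Fin n → 𝓞 K)
    (G : MvPolynomial (Fin n) (𝓞 K)) (c : 𝓞 K) (v : HeightOneSpectrum (𝓞 K)) : Prop :=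
  (∀ i, (d i : 𝓞 K) * b i ∉ v.asIdeal) ∧
    Smooth (map (algebraMap (𝓞 K) v.asIdeal.ResidueField) (equation d b G c)) ∧
    (hasseWitt d (Ideal.absNorm v.asIdeal)
      (map (algebraMap (𝓞 K) v.asIdeal.ResidueField) (equation d b G c))).det ≠ 0

theorem result :
    (∀ (K : Type) [Field K] [NumberField K] {n : ℕ} (d : Fin n → ℕ), (∀ i, d i ≠ 0) →
      ∀ b : Fin n → 𝓞 K, (∀ i, b i ≠ 0) → ∀ η : ℝ, 0 < η →
      ∃ A : ℝ, ∀ G : MvPolynomial (Fin n) (𝓞 K), (∀ u ∈ G.support, ∑ i, (u i : ℚ) / d i < 1) →
        ∀ X : ℕ, ({c : ℕ | 1 ≤ c ∧ c ≤ X ∧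
          (Nat.card {v : HeightOneSpectrum (𝓞 K) //
            Ideal.absNorm v.asIdeal ≤ Nat.sqrt X ∧ GoodOrdinary d b G c v} : ℝ) <
          ((1 - (defect d : ℝ)) / Module.finrank K (CyclotomicField (univ.lcm d) K) - η) *
            (Nat.card {v : HeightOneSpectrum (𝓞 K) //
              Ideal.absNorm v.asIdeal ≤ Nat.sqrt X} : ℝ)}.ncard : ℝ) *
          Nat.primeCounting (Nat.sqrt X) ≤ A * X) ∧
    defect ![2, 7] = 9 / 14 ∧ defect ![2, 9] = 8 / 9 ∧ defect ![3, 4] = 2 / 3 ∧
    defect ![3, 5] = 14 / 15 ∧ defect ![2, 8, 8] = 1 / 2 ∧ defect ![3, 6, 6] = 2 / 3 ∧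
    defect ![2, 3, 72] = 11 / 12 ∧ defect ![4, 4, 4] = 1 / 4 ∧ defect ![5, 5, 5, 5] = 1 / 5 := by
  refine ⟨?_, by decide +kernel, by decide +kernel, by decide +kernel, by decide +kernel,
    by decide +kernel, by decide +kernel, by decide +kernel, by decide +kernel,
    by decide +kernel⟩
  intro K _ _ n d hd b hb η hη
  exact Pool.Agent.Q267.OD.main K d hd b hb η hη

end Pool.Agent.Results.MP_17d720_ag.AlmostAllInPencils
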