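import Pool.Agent.Q267.AP.Main

/-!
# Every one-parameter family of hypersurfaces or double covers through a hyperplane arrangement

Let `K` be a number field, `m = 1` or `m = 2` and let

  `X_t : y ^ m = f_t(x_0, …, x_n)`

be a family over the line: `f_t` is a form of degree `m e` in `x` whose coefficients are polynomials
in `t` over `𝓞 K`. For `m = 1` these are hypersurfaces of `P ^ n`, for `m = 2` double covers of `P ^ n`.
The only conditions are that some member is smooth and that some member over `P ^ 1(K)`, at a point
`s₀` of `K` or at infinity, is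

  `f_(s₀) = (ℓ_1 ⋯ ℓ_e) ^ m`

for linear forms `ℓ_i` over the algebraic closure, every `n + 1` of which are linearly independent.
Examples:

* `n = 1`, `m = 2`: ALL families of hyperelliptic curves `y ^ 2 = h(x) ^ 2 + t g(x, t)` with `h`
  squarefree;
* `n = 2`, `m = 1`: ALL pencils of plane curves of degree `e` that contain `e` lines in general
  position, such as `ℓ_1 ⋯ ℓ_e + t G`, `G` an arbitrary form with smooth `ℓ_1 ⋯ ℓ_e + t G` for some `t`;
* `n = 3`: all such pencils of surfaces in `P ^ 3` and double covers of `P ^ 3`; any `n` in the same way.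

The places of `K` are denoted by `v`, their norms by `N v`. The Hasse-Witt matrix of `X_t` at `v`
consists of the coefficients of `x ^ (N v w - w')` in `f_t ^ ((N v - 1) / m)`, where `w` and `w'` run
through the exponents with `w_i ≥ 1` and `∑ w_i = e`. They index the regular differential forms of top
degree, and if the reduction is smooth and `m` is invertible the matrix is the matrix of the
Frobenius on the top cohomology of the structure sheaf. For curves and surfaces it is invertible if
and only if the reduction is ordinary (in the sense of Bloch and Kato).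

**Theorem.**

1. For every `ε > 0` and all but finitely many places `v` of prime norm, at most `ε N v` of the
   `N v` residue classes `t` are such that `X_t` does not have good ordinary reduction.
2. For `η > 0`, `0 < θ < 1` there is `A` such that for all integers `1 ≤ t ≤ X` but at most
   `A (X / Q₀ ^ (1 - θ) + Q₁ ^ (1 + θ))`, and for ALL `Q` with `Q₀ ≤ Q ≤ Q₁`, the places of good ordinary
   reduction of `X_t` are at least the proportion `1 - η` of ALL places `v` of `K` with `N v ≤ Q`.
3. For `η, δ > 0` there is `C` such that if `X ^ δ Q₀ ≤ Q₁`, then for all integers `1 ≤ t ≤ X` but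
   at most `C Q₁` the following holds: for at least the proportion `1 - η` of the scales `Q = 2 ^ j`
   between `Q₀` and `Q₁` the places of good ordinary reduction of `X_t` are at least the proportion
   `1 - η` of all places of norm at most `Q`. With `Q₀ = 1`, `Q₁ = X ^ δ`: all members but `O(X ^ δ)`.

In `DensityOne` the family has at least `p_g` parameters, the coefficients of the monomials
`x ^ (m w)`. Here there is one parameter and the direction in which it moves the degenerate member is
arbitrary, and the number of exceptions is `O(X ^ δ)` for every `δ > 0` in place of a small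
proportion of `X`.

## Proof

The main tool is the soft Stepanov theorem of `DensityOne` (`Pool/Agent/Q267/ST`): if a power series
`D` over a domain of characteristic zero is a solution of a linear differential equation with
polynomial coefficients and if, modulo `p`, a polynomial `P` of degree `O(p)` is `D` times a power
series with derivative zero, then `P` has at most `ε p` zeros in `F_p`.

**The charts.** Let `s₀ = 0`, `h = ∏ ℓ_i`. The vertices of the arrangement on a fixed hyperplane
`ℓ_1 = 0` are the intersection points of `n` of the hyperplanes, `ℓ_1 = 0` among them; their number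
`choose (e - 1) n` is the number `p_g` of the exponents `w`. At a vertex `P` choose coordinates `z` such
that the `n` hyperplanes through `P` are `z_i = 0`, `i ≠ 0`. Scale `z_i = S z_i'` for `i ≠ 0`, and
`t = γ S ^ N`, `N = m n + 1`. Then `f_t = S ^ (m n) (c z_0 ^ (e - n) ∏_(i ≠ 0) z_i) ^ m (1 + O(S))`,
so `f_t ^ (-1 / m)` is a power series in `S` over the Laurent polynomials in `z'`
(`Q102/AP/Norm.lean`). The coefficients of `z' ^ (-1)` in `x ^ (w - 1) f_t ^ (-1 / m)` are the periods
of the forms `x ^ w (dx / x) / y` over the torus around `P`. The constant term of the matrix of the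
periods (vertices times exponents `w`) is the matrix of the values of the monomials of degree
`e - n - 1` at the vertices. It is invertible (`Q102/AP/Charts.lean`: the product of the forms
that do not vanish at `P` vanishes at all the other vertices on `ℓ_1 = 0`).

**The Frobenius.** From `f ^ ((p - 1) / m) = f ^ (p / m) f ^ (-1 / m)` and from the behaviour of the
Cartier operator under linear substitutions (`Q102/AP/Cart.lean`: `U(g ∘ M) = det(M) ^ (p - 1) U(g) ∘
M^(p)`, where `M^(p)` has the entries `M_ij ^ p`) we get, for all primes `p`,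

  `per = diag(det(M_P) ^ (p - 1)) · per^(p)(S ^ p) · HW(γ S ^ N)`

(`Q174/AP/Star.lean`), so `det HW(γ S ^ N)` is `det per` times a power series in `S ^ p`. The
periods satisfy linear differential equations by the theorem of Lipshitz, over the polynomial ring in
the free variable `γ`. So for all `γ` in `F_p` outside of a finite set of bounded cardinality there
are at most `ε p` values `S` in `F_p` with `det HW(γ S ^ N) = 0`. Counting the pairs `(t, S)` with
`γ = t / S ^ N` in two ways we see that `det HW(t)` has at most `ε p` zeros `t` in `F_p`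
(`Q267/AP/Dbl.lean`). The linear forms are defined over a finitely generated algebraic extension of
`𝓞 K`, which has homomorphisms to fields above all but finitely many places (`Q102/AP/Spread.lean`);
the discriminant of the family bounds the number of singular members (`Q177/ST/Disc.lean`). This
proves the first part.

**The sieves.** The second part follows from the first and the large sieve as in `DensityOne`. For the
third part let `E` be the set of exceptions. For `t` in `E` the sum of `log N v / N v` over the places
`v` with `N v ≤ Q₁` where `X_t` is not ordinary is at least `c log X`, because the bad scales have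
positive upper logarithmic density (`Q267/AP/Scale.lean`), whereas for every `v` the elements of `E`
which are bad at `v` are contained in `ε N v` residue classes. Gallagher's larger sieve, in a form with
weights (`Q102/AP/Larger.lean`), and Mertens' theorem (`Q102/AP/Mert.lean`) give `|E| = O(Q₁)`
(`Q267/AP/LS.lean`).

The lemmas in `Q102`, `Q174` and `Q285` were proved in Lean by helpers 102, 174 and 285 after the
docstrings of `Pool/Agent/Q267/AP/Stm.lean` and `StmN.lean`.
-/

set_option autoImplicit false

open Finset MvPolynomial NumberField IsDedekindDomain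

namespace Pool.Agent.Results.MP_17d720_ag.ArrangementPencils

/-- The linear form with the coefficients `l`. -/
noncomputable def linForm {R : Type} [CommRing R] {n : ℕ} (l : Fin (n + 1) → R) :
    MvPolynomial (Fin (n + 1)) R :=
  ∑ j, C (l j) * X j

/-- Some member of the family `f` over `P^1(K)`, at a point `s₀` of `K` or at infinity (where the
member is the coefficient of `t ^ d`, `d` at least the degree in `t`), is the `m`-th power of the
product of the linear forms. -/
def HasArrangement {K : Type} [Field K] [NumberField K] {n e : ℕ} (m : ℕ)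
    (f : MvPolynomial (Fin (n + 1)) (Polynomial (𝓞 K)))
    (l : Fin e → Fin (n + 1) → AlgebraicClosure K) : Prop :=
  (∃ s₀ : K, map ((algebraMap K (AlgebraicClosure K)).comp
    (Polynomial.eval₂RingHom (algebraMap (𝓞 K) K) s₀)) f = (∏ i, linForm (l i)) ^ m) ∨
  ∃ d : ℕ, (∀ u, (coeff u f).natDegree ≤ d) ∧
    ∀ u, algebraMap K (AlgebraicClosure K) (algebraMap (𝓞 K) K ((coeff u f).coeff d)) =
      coeff u ((∏ i, linForm (l i)) ^ m)

/-- The form `f` has no singular zero over the algebraic closure except the origin. -/
def Smooth {k : Type} [Field k] {n : ℕ} (f : MvPolynomial (Fin n) k) : Prop :=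
  ∀ ξ : Fin n → AlgebraicClosure k, aeval ξ f = 0 → (∀ i, aeval ξ (pderiv i f) = 0) → ξ = 0

/-- The exponents `w` with `w i ≥ 1` and `∑ w i = e`. -/
abbrev Exps (n e : ℕ) :=
  {w : (i : Fin (n + 1)) → Fin (e + 1) // (∀ i, 0 < (w i : ℕ)) ∧ ∑ i, (w i : ℕ) = e}

/-- The Hasse-Witt matrix of `y ^ m = f` over a field with `q` elements: the entry with indices
`w`, `w'` is the coefficient of `x ^ (q w - w')` in `f ^ ((q - 1) / m)`, written as the coefficient of
`x ^ (q w)` in `x ^ w' f ^ ((q - 1) / m)`. -/
noncomputable def hasseWitt {R : Type} [CommRing R] {n : ℕ} (m e q : ℕ)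
    (f : MvPolynomial (Fin (n + 1)) R) : Matrix (Exps n e) (Exps n e) R :=
  Matrix.of fun w w' => coeff (Finsupp.equivFunOnFinite.symm fun i => q * (w.1 i : ℕ))
    (monomial (Finsupp.equivFunOnFinite.symm fun i => (w'.1 i : ℕ)) 1 * f ^ ((q - 1) / m))

/-- The member of the family at the integer `t`. -/
noncomputable def member {K : Type} [Field K] [NumberField K] {n : ℕ}
    (f : MvPolynomial (Fin (n + 1)) (Polynomial (𝓞 K))) (t : ℕ) : MvPolynomial (Fin (n + 1)) (𝓞 K) :=
  map (Polynomial.evalRingHom (t : 𝓞 K)) f

/-- `y ^ m = F` (for `m = 1`: the hypersurface `F = 0`), `F` of degree `m e`, has good ordinary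
reduction at `v`: `m` is invertible at `v`, the reduction of `F` is smooth and its Hasse-Witt matrix
is invertible. -/
def GoodOrdinary {K : Type} [Field K] [NumberField K] {n : ℕ} (m e : ℕ)
    (F : MvPolynomial (Fin (n + 1)) (𝓞 K)) (v : HeightOneSpectrum (𝓞 K)) : Prop :=
  (m : 𝓞 K) ∉ v.asIdeal ∧ Smooth (map (algebraMap (𝓞 K) v.asIdeal.ResidueField) F) ∧
    (hasseWitt m e (Ideal.absNorm v.asIdeal)
      (map (algebraMap (𝓞 K) v.asIdeal.ResidueField) F)).det ≠ 0

lemma hasseWitt_eq {R : Type} [CommRing R] {n : ℕ} (m e q : ℕ)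
    (f : MvPolynomial (Fin (n + 1)) R) : hasseWitt m e q f =
      Pool.Agent.Q267.DC.hm ((q - 1) / m) q (Pool.Agent.Q267.AP.wexp n e) f := by
  ext w w'
  unfold hasseWitt Pool.Agent.Q267.DC.hm
  rw [Matrix.of_apply, Matrix.of_apply]
  congr 1
  ext i
  rw [Finsupp.smul_apply, smul_eq_mul]
  rfl

lemma good_eq {K : Type} [Field K] [NumberField K] {n : ℕ} (m e : ℕ)
    (F : MvPolynomial (Fin (n + 1)) (𝓞 K)) (v : HeightOneSpectrum (𝓞 K)) :
    Pool.Agent.Q267.AP.Good m e v F = GoodOrdinary m e F v := by
  unfold Pool.Agent.Q267.AP.Good GoodOrdinary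
  rw [hasseWitt_eq]
  rfl

open Classical in
theorem result (K : Type) [Field K] [NumberField K] (m n e : ℕ) (hm : m = 1 ∨ m = 2)
    (f : MvPolynomial (Fin (n + 1)) (Polynomial (𝓞 K))) (hf : ∀ u ∈ f.support, ∑ i, u i = m * e)
    (l : Fin e → Fin (n + 1) → AlgebraicClosure K)
    (hl : ∀ σ : Fin (n + 1) → Fin e, Function.Injective σ →
      (Matrix.of fun i j => l (σ i) j).det ≠ 0) (harr : HasArrangement m f l)
    (hsm : ∃ t : K, Smooth (map (Polynomial.eval₂RingHom (algebraMap (𝓞 K) K) t) f)) :
    (∀ ε : ℝ, 0 < ε → {v : HeightOneSpectrum (𝓞 K) | (Ideal.absNorm v.asIdeal).Prime ∧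
      ε * Ideal.absNorm v.asIdeal < (((range (Ideal.absNorm v.asIdeal)).filter
        fun t : ℕ => ¬ GoodOrdinary m e (member f t) v).card : ℝ)}.Finite) ∧
    (∀ η : ℝ, 0 < η → ∀ θ : ℝ, 0 < θ → θ < 1 → ∃ A : ℝ, ∀ X Q₀ Q₁ : ℕ, 1 ≤ Q₀ →
      ({t : ℕ | (1 ≤ t ∧ t ≤ X) ∧ ∃ Q, Q₀ ≤ Q ∧ Q ≤ Q₁ ∧
        (Nat.card {v : HeightOneSpectrum (𝓞 K) // Ideal.absNorm v.asIdeal ≤ Q ∧
          GoodOrdinary m e (member f t) v} : ℝ) <
        (1 - η) * Nat.card {v : HeightOneSpectrum (𝓞 K) //
          Ideal.absNorm v.asIdeal ≤ Q}}.ncard : ℝ) ≤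
      A * (X * (Q₀ : ℝ) ^ (θ - 1) + (Q₁ : ℝ) ^ (1 + θ))) ∧
    (∀ η δ : ℝ, 0 < η → 0 < δ → ∃ C : ℝ, ∀ X Q₀ Q₁ : ℕ, 1 ≤ Q₀ → (X : ℝ) ^ δ * Q₀ ≤ Q₁ →
      ({t : ℕ | (1 ≤ t ∧ t ≤ X) ∧
        (Nat.card {j : ℕ // (Q₀ ≤ 2 ^ j ∧ 2 ^ j ≤ Q₁) ∧
          (1 - η) * Nat.card {v : HeightOneSpectrum (𝓞 K) // Ideal.absNorm v.asIdeal ≤ 2 ^ j} ≤
          (Nat.card {v : HeightOneSpectrum (𝓞 K) // Ideal.absNorm v.asIdeal ≤ 2 ^ j ∧
            GoodOrdinary m e (member f t) v} : ℝ)} : ℝ) <
        (1 - η) * Nat.card {j : ℕ // Q₀ ≤ 2 ^ j ∧ 2 ^ j ≤ Q₁}}.ncard : ℝ) ≤ C * Q₁) := by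
  have hfew := fun ε hε => Pool.Agent.Q267.AP.few' (e := e) m hm f hf l hl harr hsm ε hε
  have h2 := Pool.Agent.Q267.AP.allscales m f hfew
  have h3 := Pool.Agent.Q267.AP.mostscales m f hfew
  simp only [good_eq] at hfew h2 h3
  refine ⟨fun ε hε => ?_, fun η hη θ hθ0 hθ1 => ?_, fun η δ hη hδ => ?_⟩
  · refine (hfew ε hε).subset fun v hv => ⟨hv.1, fun h => ?_⟩
    exact absurd (lt_of_lt_of_le hv.2 (le_trans (le_of_eq (by rfl)) h)) (lt_irrefl _)
  · exact h2 η hη θ hθ0 hθ1
  · exact h3 η δ hη hδ

end Pool.Agent.Results.MP_17d720_ag.ArrangementPencils
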