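import Pool.Agent.Q267.ST.HMain
import Pool.Agent.Q267.ST.HFermat
import Pool.Agent.Q177.ST.Disc

/-!
# Ordinary reduction at almost all places, at all scales, for almost all hypersurfaces and double covers

Let `K` be a number field, `m = 1` or `m = 2`, and let `a_1, …, a_n ≥ 1` be weights. We look at the
varieties

  `y ^ m = f(x_1, …, x_n)`, `f` weighted homogeneous of degree `D` over `𝓞 K`,

that is, for `m = 1`, the hypersurfaces of the weighted projective space `P(a_1, …, a_n)`, in
particular all hypersurfaces of all projective spaces, and, for `m = 2`, the double covers of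
`P(a_1, …, a_n)`, in particular all double planes `y ^ 2 = f(x_1, x_2, x_3)` and all hyperelliptic curves
`y ^ 2 = f(x_1, x_2)`. Let `w` run through the exponents with `w_i ≥ 1` and `m ∑ a_i w_i = D`. They
index the regular differential forms of top degree: their number is the genus of the curve, or
the geometric genus. The Hasse-Witt matrix at a place `v` with `N v = q` consists of the
coefficients of `x ^ (q w - w')` in `f ^ ((q - 1) / m)`. If the reduction is quasi-smooth and `m` is
invertible, it is the matrix of the Frobenius on the cohomology of the structure sheaf in top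
degree. For curves and surfaces (smooth plane curves, hyperelliptic curves, smooth surfaces in
`P ^ 3`, double planes) it is invertible if and only if the reduction is ordinary in the sense of
Bloch and Kato.

We write `f = G + ∑_(u ∈ T) t_u x ^ u`, where `G` is arbitrary and `T` is any nonempty set of exponents
of degree `D` which contains the exponents `m w`. (`T` can be the set of all exponents of degree `D`;
then these are all hypersurfaces, or all double covers. It can also consist of the exponents `m w`
alone.) The only condition is that the family has a quasi-smooth member over `K`.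

**Theorem.** For `η > 0` and `0 < θ < 1` there is a constant `A` such that for all vectors
`t ∈ [1, X] ^ T` but at most

  `A (X ^ |T| / Q₀ ^ (1 - θ) + X ^ (|T| - 1) Q₁ ^ (1 + θ))`

exceptions, and for ALL `Q` with `Q₀ ≤ Q ≤ Q₁`, the places of good ordinary reduction of `y ^ m = f`
are at least the proportion `1 - η` of ALL places `v` of `K` with `N v ≤ Q`.

Take `Q₁ = X ^ (1 - 2 θ)`. If `Q₀` is a large constant, all but a small proportion of the members
have ordinary reduction at the proportion `1 - η` of the places in the whole range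
`Q₀ ≤ Q ≤ X ^ (1 - 2 θ)`; if `Q₀` tends to infinity with `X`, almost all of them do. The places of `K`
itself are counted; there is no extension of `K` and no condition on degree, dimension, genus, the
roots of unity in `K` or the residue characteristic. The second part of the theorem is the case of
all forms of degree `D` in `n` variables (`a = 1`, `G = 0`, `T` = all exponents).

## Proof: a soft Stepanov theorem

The new ingredient is a bound `o(p)` for the number of zeros in `F_p` of polynomials of degree
proportional to `p` which satisfy a Frobenius congruence. (The Hasse-Witt determinants have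
degree `r (p - 1) / m` in the parameters, so the trivial bound gives nothing for `m = 1`, and only
the proportion `2 ^ (-r)` for `m = 2`, as in `DoubleCovers`.)

**Soft Stepanov theorem** (`S_Soft` in `Pool/Agent/Q267/ST/Stm.lean`). Let `D ≠ 0` be a power series
over an integral domain `A` of characteristic zero which satisfies a linear differential equation with
polynomial coefficients. For all `ε > 0` and `C` there are `p₀` and `a ≠ 0` in `A` such that: if
`p ≥ p₀` is a prime, `φ : A → k` a homomorphism to a field of characteristic `p` with `φ(a) ≠ 0` and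
`P = G φ(D)` for a polynomial `P` over `k` of degree at most `C p` and a power series `G` over `k` with
`G' = 0`, `G(0) ≠ 0`, then `P` has at most `ε p` zeros in `F_p`.

Proof. Let `y_0 = D, y_1, …, y_κ` be the derivatives of `D` up to the order of the equation. The
monomials of degree `M` in the `y_l` span a space of dimension `h(M) ≤ (M + 1) ^ (κ + 1)` over the
rational functions, and multiplication by `y_0` is injective, so
`h(M) - h(M - 1) ≤ ε' h(M)` for some `M`: there is a basis `B` of monomials of degree `M` such that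
all but `ε' |B|` of them are divisible by `D` (`Q299/ST/Growth.lean`). Over `k` multiply by `G ^ M`; we
get polynomials `Z_e`, `e ∈ B`, which satisfy the reduced differential system because `G' = 0`. The
auxiliary polynomial `∑_b x ^ (p b) ∑_e c_(b, e)(x) Z_e`, `b < β`, is differentiated `N` times; at a
zero `t ∈ F_p` of `P` only the `ε' |B|` monomials not divisible by `D` contribute and `t ^ p = t`, so
vanishing of order `N` at ALL zeros of `P` in `F_p` is a linear system which does not see the zeros, of
about `ε' |B| N` equations with `β |B|` unknowns in place of Stepanov's `|B| N`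
(`Q121/ST/AuxVec.lean`). Here `β` and `N ≈ β / (2 ε')` are constants, and the auxiliary polynomial is
not zero for large `p` because the monomials in `B` are linearly independent over the rational
functions, which is visible modulo a fixed power of `x` (`Q121/ST/Cert.lean`). Comparing `N` times the number
of zeros with the degree we get `≤ ε p` (`Q95/ST/Abs.lean`, `Q299/ST/Soft.lean`).

**The differential equations.** Consider a curve `S ↦ (t_w S ^ (m |w| ^ 2), t_u S ^ H)` in the parameter
space, an orbit of a one-dimensional torus. Near `S = 0` the matrix with the entries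
`[x ^ (-w')]` of a branch of `x ^ (-w) (f / x ^ (m w)) ^ (-1 / m)` is invertible; its entries satisfy
linear differential equations in `S` by a theorem of Lipshitz (counting dimensions,
`Q299/ST/LipRel.lean`, `Q121/ST/Ext.lean`), so its determinant does, and the Frobenius identity for
`f ^ (p / m) / f ^ (1 / m)` (`Q299/ST/Frob.lean`, `Q267/ST/Det.lean`, `Series.lean`, `Red.lean`) shows that
the determinant of the Hasse-Witt matrix is this series times a series in `S ^ p`, for all primes `p`.
So the soft Stepanov theorem holds on every orbit, and averaging over the torus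
(`Q267/ST/HWt.lean`, `HCount.lean`) at most `ε p ^ |T|` vectors modulo `p` have a singular matrix if
`p ≥ p₀(ε)`.

The discriminant (a maximal minor of the Macaulay matrix of `f` and its derivatives, `S_Disc`) and
the Schwartz-Zippel lemma bound the number of members modulo `p` that are not quasi-smooth. The large
sieve in variance form, a geometric sequence of scales and the prime ideal theorem give all scales, as
in `DoubleCovers` (`Pool/Agent/Q267/DC`). The lemmas were proved in Lean by helpers 121, 225, 95, 299 and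
177 after the docstrings of `Pool/Agent/Q267/ST/Stm.lean` and `HDef.lean`.
-/

set_option autoImplicit false

open Finset MvPolynomial NumberField IsDedekindDomain

namespace Pool.Agent.Results.MP_17d720_ag.DensityOne

/-- The weighted degree of an exponent. -/
def wdeg {n : ℕ} (a : Fin n → ℕ) (u : Fin n →₀ ℕ) : ℕ := ∑ i, a i * u i

/-- The exponents `w` with `w i ≥ 1` and `m ∑ a i w i = D`. -/
abbrev Exps {n : ℕ} (m D : ℕ) (a : Fin n → ℕ) :=
  {w : (i : Fin n) → Fin (D + 1) // (∀ i, 0 < (w i : ℕ)) ∧ m * ∑ i, a i * (w i : ℕ) = D}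

/-- The member `G + ∑_(u ∈ T) t_u x ^ u` of the family. -/
noncomputable def member {R : Type*} [CommRing R] {n : ℕ} (G : MvPolynomial (Fin n) R)
    (T : Finset (Fin n →₀ ℕ)) (t : T → R) : MvPolynomial (Fin n) R :=
  G + ∑ u : T, monomial u.1 (t u)

/-- The hypersurface `f = 0` is quasi-smooth: its affine cone is smooth outside of the origin. (For
`a = 1` this means that the projective hypersurface is smooth.) Then `y ^ 2 = f` is quasi-smooth, too,
if `2` is invertible. -/
def QSmooth {k : Type*} [Field k] {n : ℕ} (f : MvPolynomial (Fin n) k) : Prop :=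
  ∀ ξ : Fin n → AlgebraicClosure k, aeval ξ f = 0 → (∀ i, aeval ξ (pderiv i f) = 0) → ξ = 0

/-- The Hasse-Witt matrix of `y ^ m = f` over a field with `q` elements: the entry with indices
`w`, `w'` is the coefficient of `x ^ (q w - w')` in `f ^ ((q - 1) / m)`, written as the coefficient of
`x ^ (q w)` in `x ^ w' f ^ ((q - 1) / m)`. -/
noncomputable def hasseWitt {R : Type*} [CommRing R] {n : ℕ} (m D : ℕ) (a : Fin n → ℕ) (q : ℕ)
    (f : MvPolynomial (Fin n) R) : Matrix (Exps m D a) (Exps m D a) R :=
  Matrix.of fun w w' => coeff (Finsupp.equivFunOnFinite.symm fun i => q * (w.1 i : ℕ))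
    (monomial (Finsupp.equivFunOnFinite.symm fun i => (w'.1 i : ℕ)) 1 * f ^ ((q - 1) / m))

/-- `y ^ m = f` (for `m = 1`: the hypersurface `f = 0`) has good ordinary reduction at `v`: `m` is
invertible at `v`, the reduction is quasi-smooth and its Hasse-Witt matrix is invertible. -/
def GoodOrdinary {K : Type} [Field K] [NumberField K] {n : ℕ} (m D : ℕ) (a : Fin n → ℕ)
    (f : MvPolynomial (Fin n) (𝓞 K)) (v : HeightOneSpectrum (𝓞 K)) : Prop :=
  (m : 𝓞 K) ∉ v.asIdeal ∧ QSmooth (map (algebraMap (𝓞 K) v.asIdeal.ResidueField) f) ∧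
    (hasseWitt m D a (Ideal.absNorm v.asIdeal)
      (map (algebraMap (𝓞 K) v.asIdeal.ResidueField) f)).det ≠ 0

open Classical in
theorem result :
    (∀ (K : Type) [Field K] [NumberField K] (m D : ℕ), m = 1 ∨ m = 2 → ∀ {n : ℕ}, 0 < n →
      ∀ a : Fin n → ℕ, (∀ i, a i ≠ 0) →
      ∀ G : MvPolynomial (Fin n) (𝓞 K), (∀ u ∈ G.support, wdeg a u = D) →
      ∀ T : Finset (Fin n →₀ ℕ), T.Nonempty → (∀ u ∈ T, wdeg a u = D) →
      (∀ w : Exps m D a, Finsupp.equivFunOnFinite.symm (fun i => m * (w.1 i : ℕ)) ∈ T) →
      (∃ τ : T → K, QSmooth (member (map (algebraMap (𝓞 K) K) G) T τ)) →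
      ∀ η : ℝ, 0 < η → ∀ θ : ℝ, 0 < θ → θ < 1 →
      ∃ A : ℝ, ∀ X Q₀ Q₁ : ℕ, 1 ≤ Q₀ →
        ({t : T → ℕ | (∀ u, 1 ≤ t u ∧ t u ≤ X) ∧ ∃ Q, Q₀ ≤ Q ∧ Q ≤ Q₁ ∧
          (Nat.card {v : HeightOneSpectrum (𝓞 K) // Ideal.absNorm v.asIdeal ≤ Q ∧
            GoodOrdinary m D a (member G T fun u => (t u : 𝓞 K)) v} : ℝ) <
          (1 - η) * (Nat.card {v : HeightOneSpectrum (𝓞 K) //
            Ideal.absNorm v.asIdeal ≤ Q} : ℝ)}.ncard : ℝ) ≤
        A * ((X : ℝ) ^ T.card * (Q₀ : ℝ) ^ (θ - 1) +
          (X : ℝ) ^ (T.card - 1) * (Q₁ : ℝ) ^ (1 + θ))) ∧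
    (∀ (K : Type) [Field K] [NumberField K] (m D n : ℕ), m = 1 ∨ m = 2 → 0 < D → 0 < n →
      ∀ η : ℝ, 0 < η → ∀ θ : ℝ, 0 < θ → θ < 1 →
      ∃ A : ℝ, ∀ X Q₀ Q₁ : ℕ, 1 ≤ Q₀ →
        ({t : (finsuppAntidiag (univ : Finset (Fin n)) D : Finset (Fin n →₀ ℕ)) → ℕ |
          (∀ u, 1 ≤ t u ∧ t u ≤ X) ∧ ∃ Q, Q₀ ≤ Q ∧ Q ≤ Q₁ ∧
          (Nat.card {v : HeightOneSpectrum (𝓞 K) // Ideal.absNorm v.asIdeal ≤ Q ∧
            GoodOrdinary m D (fun _ => 1) (∑ u, monomial u.1 (t u : 𝓞 K)) v} : ℝ) <
          (1 - η) * (Nat.card {v : HeightOneSpectrum (𝓞 K) //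
            Ideal.absNorm v.asIdeal ≤ Q} : ℝ)}.ncard : ℝ) ≤
        A * ((X : ℝ) ^ (finsuppAntidiag (univ : Finset (Fin n)) D).card * (Q₀ : ℝ) ^ (θ - 1) +
          (X : ℝ) ^ ((finsuppAntidiag (univ : Finset (Fin n)) D).card - 1) *
            (Q₁ : ℝ) ^ (1 + θ))) := by
  have key : ∀ (K : Type) [Field K] [NumberField K] (m D : ℕ), m = 1 ∨ m = 2 → ∀ {n : ℕ}, 0 < n →
      ∀ a : Fin n → ℕ, (∀ i, a i ≠ 0) →
      ∀ G : MvPolynomial (Fin n) (𝓞 K), (∀ u ∈ G.support, wdeg a u = D) →
      ∀ T : Finset (Fin n →₀ ℕ), T.Nonempty → (∀ u ∈ T, wdeg a u = D) →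
      (∀ w : Exps m D a, Finsupp.equivFunOnFinite.symm (fun i => m * (w.1 i : ℕ)) ∈ T) →
      (∃ τ : T → K, QSmooth (member (map (algebraMap (𝓞 K) K) G) T τ)) →
      ∀ η : ℝ, 0 < η → ∀ θ : ℝ, 0 < θ → θ < 1 →
      ∃ A : ℝ, ∀ X Q₀ Q₁ : ℕ, 1 ≤ Q₀ →
        ({t : T → ℕ | (∀ u, 1 ≤ t u ∧ t u ≤ X) ∧ ∃ Q, Q₀ ≤ Q ∧ Q ≤ Q₁ ∧
          (Nat.card {v : HeightOneSpectrum (𝓞 K) // Ideal.absNorm v.asIdeal ≤ Q ∧
            GoodOrdinary m D a (member G T fun u => (t u : 𝓞 K)) v} : ℝ) <
          (1 - η) * (Nat.card {v : HeightOneSpectrum (𝓞 K) //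
            Ideal.absNorm v.asIdeal ≤ Q} : ℝ)}.ncard : ℝ) ≤
        A * ((X : ℝ) ^ T.card * (Q₀ : ℝ) ^ (θ - 1) +
          (X : ℝ) ^ (T.card - 1) * (Q₁ : ℝ) ^ (1 + θ)) := by
    intro K _ _ m D hm n hn a ha G hG T hT0 hT1 hT hsm η hη θ hθ0 hθ1
    exact Pool.Agent.Q267.ST.Hom.main Pool.Agent.Q177.ST.disc K m D hm hn a ha G hG T hT0
      (fun w => by
        have h := hT w
        have h2 : m • Pool.Agent.Q267.ST.Hom.wexp m D a w =
            Finsupp.equivFunOnFinite.symm (fun i => m * (w.1 i : ℕ)) := by
          ext i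
          rfl
        rw [h2]
        exact h) hT1 hsm η hη θ hθ0 hθ1
  refine ⟨key, ?_⟩
  intro K _ _ m D n hm hD hn η hη θ hθ0 hθ1
  have hdeg : ∀ u : Fin n →₀ ℕ, u ∈ finsuppAntidiag (univ : Finset (Fin n)) D ↔
      wdeg (fun _ => 1) u = D := by
    intro u
    rw [mem_finsuppAntidiag]
    unfold wdeg
    simp only [one_mul, subset_univ, and_true]
  obtain ⟨τ, hτ⟩ := Pool.Agent.Q267.ST.Hom.fermat (K := K) n D hD
  obtain ⟨A, hA⟩ := key K m D hm hn (fun _ => 1) (fun _ => one_ne_zero) 0 (by simp)
    (finsuppAntidiag univ D) ⟨Finsupp.single ⟨0, hn⟩ D, by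
      rw [hdeg]
      unfold wdeg
      rw [Finset.sum_eq_single ⟨0, hn⟩]
      · rw [Finsupp.single_eq_same, one_mul]
      · intro j _ hj
        rw [Finsupp.single_eq_of_ne (by simpa using hj), mul_zero]
      · intro h
        exact absurd (mem_univ _) h⟩
    (fun u hu => (hdeg u).mp hu) (fun w => by
      rw [hdeg]
      unfold wdeg
      have h := w.2.2
      rw [mul_sum] at h
      refine Eq.trans ?_ h
      refine sum_congr rfl fun i _ => ?_
      rw [one_mul, one_mul]
      rfl)
    ⟨τ, by
      rw [map_zero]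
      exact hτ⟩ η hη θ hθ0 hθ1
  refine ⟨A, fun X Q₀ Q₁ hQ₀ => ?_⟩
  have h := hA X Q₀ Q₁ hQ₀
  unfold member at h
  simp only [zero_add] at h
  exact h

end Pool.Agent.Results.MP_17d720_ag.DensityOne
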