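import Pool.Agent.Q65.SS.OMain

/-!
# Ordinary reduction of hypersurfaces given by sums of binary forms or of quaternary cubic forms

Let `K` be a number field. We consider the smooth hypersurfaces

  `W : f_1(x^(1)) + f_2(x^(2)) + ⋯ + f_r(x^(r)) = 0`, `r ≥ 1` arbitrary,

where over the algebraic closure of `K` the `f_j` are forms in disjoint sets of variables which are
binary forms of degree `d ≤ 6`, or cubic forms in at most four variables (each of these forms may be
replaced by `f_j - u ^ d`, `u` a further variable). The dimension of `W` is arbitrary. We prove: if `X`
is a smooth projective variety over `K` which over the algebraic closure is a product of such
hypersurfaces (of various degrees), elliptic curves, abelian surfaces, K3 surfaces and abelian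
varieties which have complex multiplication or simple signature, or more generally a variety whose
motive is obtained from these by tensor products, sums, summands and Tate twists, then
* over a finite extension `L` of `K` the places of `L` above the places of good ordinary reduction of
  `X` have density one,
* the set of places of `K` of good ordinary reduction of `X` has positive lower density.

The Lean proof contains: the decomposition of the motive of `W` (`ball_sum`, by the theorem on sums of
forms of the library); sets of places which contain the places above a set of density one are stable
under intersections (enlarging the field), and yield positive lower density over `K`; this uses the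
prime ideal theorem, proved in the library.
-/

set_option autoImplicit false

open CategoryTheory MonoidalCategory NumberField IsDedekindDomain Filter Topology

universe v u w

namespace Pool.Agent.Results.MP_17d720_ag.SumsOfBinaryForms

open Pool.Agent.Q28.HJ Pool.Agent.Q65.SS Pool.Agent.W528.Ord Pool.Agent.W401.Cheb

/-- **Ordinary reduction in all dimensions.** Let `T` be the motives over the algebraic closure of the
number field `K` with the sets of places where they are ordinary (`hT`: known facts). Let `X` be a
smooth projective variety over `K` whose motive over the algebraic closure is obtained by tensor
products, direct sums, direct summands and Tate twists from the motives of elliptic curves, abelian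
surfaces, K3 surfaces, abelian varieties with complex multiplication or simple signature, and from
the primitive motives of the smooth hypersurfaces `W` which are sums, in disjoint sets of variables,
of binary forms of degree at most six or of cubic forms in at most four variables (`BallSum`). Then
there is a finite extension `L` of `K` such that the places of `L` above places of `K` of good ordinary
reduction of `X` have density one, and the places of `K` of good ordinary reduction have positive
lower density. -/
theorem result {K : Type} [Field K] [NumberField K] {𝓜 : Type u} [Category.{v} 𝓜] [Preadditive 𝓜]
    [MonoidalCategory 𝓜] {T : OrdData.{v, u, w} K 𝓜} (hT : T.Facts) (X : T.Var)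
    (hX : GenBy T.L (fun N => T.Base N ∨ ∃ W, BallSum T.toJoinData W ∧ N = T.prim W) (T.mot X)) :
    (∃ (L : IntermediateField K (AlgebraicClosure K)) (_ : NumberField L),
      Tendsto (ratio fun w : HeightOneSpectrum (𝓞 L) => ∀ v : HeightOneSpectrum (𝓞 K),
        w.asIdeal.comap (algebraMap (𝓞 K) (𝓞 L)) = v.asIdeal → v ∈ T.good X) atTop (𝓝 1)) ∧
      0 < lowerDensity (· ∈ T.good X) :=
  OrdData.final hT X hX

end Pool.Agent.Results.MP_17d720_ag.SumsOfBinaryForms
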